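import Pool.Agent.MixSys.Defs

/-!
# Correlation of low degree polynomials modulo p with linear forms modulo m
-/

set_option autoImplicit false

namespace Pool.Agent.MixSys

open Finset Pool.Agent.Helper21.LinSys

variable {p m n : ℕ}

theorem mon_mem_pol {D : ℕ} (S : Finset (Fin n)) (h : S.card ≤ D) : mon p S ∈ pol p n D :=
  Submodule.subset_span ⟨S, h, rfl⟩

theorem pol_mono {D E : ℕ} (h : D ≤ E) : pol p n D ≤ pol p n E := by
  refine Submodule.span_mono ?_
  rintro f ⟨S, hS, rfl⟩
  exact ⟨S, hS.trans h, rfl⟩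

theorem const_of_pol_zero {F : (Fin n → Bool) → ZMod p} (hF : F ∈ pol p n 0) (x y : Fin n → Bool) :
    F x = F y := by
  unfold pol at hF
  induction hF using Submodule.span_induction with
  | mem f hf =>
    obtain ⟨S, hS, rfl⟩ := hf
    have : S = ∅ := Finset.card_eq_zero.1 (by omega)
    subst this
    simp [mon]
  | zero => rfl
  | add f g _ _ hf hg => rw [Pi.add_apply, Pi.add_apply, hf, hg]
  | smul a f _ hf => rw [Pi.smul_apply, Pi.smul_apply, hf]

section Glue

/-- The tuple with the common values `u` on `C` and the values of `X` outside `C`. -/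
def glue (C : Finset (Fin n)) (X : Fin p → Fin n → Bool) (u : Fin n → Bool) (j : Fin p) :
    Fin n → Bool := fun i => if i ∈ C then u i else X j i

theorem mon_glue (C S : Finset (Fin n)) (X : Fin p → Fin n → Bool) (u : Fin n → Bool)
    (j : Fin p) : mon p S (glue C X u j) = mon p (S ∩ C) u * mon p (S \ C) (X j) := by
  unfold mon
  by_cases h1 : ∀ i ∈ S ∩ C, u i = true
  · by_cases h2 : ∀ i ∈ S \ C, X j i = true
    · rw [if_pos h1, if_pos h2, if_pos, one_mul]
      intro i hi
      unfold glue
      by_cases hc : i ∈ C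
      · rw [if_pos hc]; exact h1 i (mem_inter.2 ⟨hi, hc⟩)
      · rw [if_neg hc]; exact h2 i (mem_sdiff.2 ⟨hi, hc⟩)
    · rw [if_pos h1, if_neg h2, if_neg, mul_zero]
      intro h
      refine h2 fun i hi => ?_
      have h3 := h i (mem_sdiff.1 hi).1
      unfold glue at h3
      rwa [if_neg (mem_sdiff.1 hi).2] at h3
  · rw [if_neg h1, if_neg, zero_mul]
    intro h
    refine h1 fun i hi => ?_
    have h3 := h i (mem_inter.1 hi).1
    unfold glue at h3
    rwa [if_pos (mem_inter.1 hi).2] at h3

theorem sum_glue_mem {D : ℕ} (C : Finset (Fin n)) (X : Fin p → Fin n → Bool)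
    {F : (Fin n → Bool) → ZMod p} (hF : F ∈ pol p n (D + 1)) :
    (fun u => ∑ j, F (glue C X u j)) ∈ pol p n D := by
  unfold pol at hF
  induction hF using Submodule.span_induction with
  | mem f hf =>
    obtain ⟨S, hS, rfl⟩ := hf
    by_cases h : S ⊆ C
    · have : (fun u => ∑ j : Fin p, mon p S (glue C X u j)) = 0 := by
        funext u
        have e : ∀ j : Fin p, mon p S (glue C X u j) = mon p (S ∩ C) u := by
          intro j
          rw [mon_glue, Finset.sdiff_eq_empty_iff_subset.2 h]
          simp [mon]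
        change ∑ j : Fin p, mon p S (glue C X u j) = 0
        rw [Finset.sum_congr rfl fun j _ => e j]
        simp
      rw [this]
      exact Submodule.zero_mem _
    · have : (fun u => ∑ j : Fin p, mon p S (glue C X u j)) =
          (∑ j : Fin p, mon p (S \ C) (X j)) • mon p (S ∩ C) := by
        funext u
        change ∑ j : Fin p, mon p S (glue C X u j) =
          (∑ j : Fin p, mon p (S \ C) (X j)) * mon p (S ∩ C) u
        rw [Finset.sum_congr rfl fun j _ => mon_glue C S X u j, ← Finset.mul_sum, mul_comm]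
      rw [this]
      refine Submodule.smul_mem _ _ (mon_mem_pol _ ?_)
      have h1 : S ∩ C ⊂ S := by
        rw [Finset.ssubset_iff_subset_ne]
        exact ⟨inter_subset_left, fun he => h (Finset.inter_eq_left.1 he)⟩
      have := Finset.card_lt_card h1
      omega
  | zero =>
    have : (fun u => ∑ j : Fin p, (0 : (Fin n → Bool) → ZMod p) (glue C X u j)) = 0 := by
      funext u
      simp
    rw [this]
    exact Submodule.zero_mem _
  | add f g _ _ hf hg =>
    have : (fun u => ∑ j : Fin p, (f + g) (glue C X u j)) =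
        (fun u => ∑ j : Fin p, f (glue C X u j)) + fun u => ∑ j : Fin p, g (glue C X u j) := by
      funext u
      simp [Finset.sum_add_distrib]
    rw [this]
    exact Submodule.add_mem _ hf hg
  | smul a f _ hf =>
    have : (fun u => ∑ j : Fin p, (a • f) (glue C X u j)) =
        a • fun u => ∑ j : Fin p, f (glue C X u j) := by
      funext u
      simp [Finset.mul_sum]
    rw [this]
    exact Submodule.smul_mem _ _ hf

/-- The coefficients on `C`, multiplied by `p`. -/
def restr (p : ℕ) (C : Finset (Fin n)) (L : Fin n → ZMod m) : Fin n → ZMod m :=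
  fun i => if i ∈ C then (p : ZMod m) * L i else 0

theorem sum_ev_glue (C : Finset (Fin n)) (X : Fin p → Fin n → Bool) (L : Fin n → ZMod m)
    (u : Fin n → Bool) : ∑ j, ev L (glue C X u j) =
      ev (restr p C L) u + ∑ j, ev (fun i => if i ∈ C then 0 else L i) (X j) := by
  have h : ∀ j, ev L (glue C X u j) = (∑ i, if i ∈ C then (if u i = true then L i else 0) else 0) +
      ev (fun i => if i ∈ C then 0 else L i) (X j) := by
    intro j
    unfold ev
    rw [← Finset.sum_add_distrib]
    refine Finset.sum_congr rfl fun i _ => ?_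
    unfold glue
    by_cases hc : i ∈ C
    · simp [hc]
    · simp [hc]
  rw [Finset.sum_congr rfl fun j _ => h j, Finset.sum_add_distrib]
  congr 1
  rw [Finset.sum_const, Finset.card_univ, Fintype.card_fin, nsmul_eq_mul, Finset.mul_sum]
  unfold ev restr
  refine Finset.sum_congr rfl fun i _ => ?_
  by_cases hc : i ∈ C
  · by_cases hu : u i = true
    · simp [hc, hu]
    · simp [hc, hu]
  · simp [hc]

end Glue

/-- The type of a tuple at a coordinate: nothing if it is constant, otherwise the tuple. -/
def typ (X : Fin p → Fin n → Bool) (i : Fin n) : Option (Fin p → Bool) :=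
  if ∀ j j', X j i = X j' i then none else some fun j => X j i

theorem typ_none {X : Fin p → Fin n → Bool} {i : Fin n} (h : typ X i = none) (j j' : Fin p) :
    X j i = X j' i := by
  unfold typ at h
  by_contra hne
  rw [if_neg (fun hh => hne (hh j j'))] at h
  cases h

theorem typ_ne_none {X : Fin p → Fin n → Bool} {i : Fin n} (h : typ X i ≠ none) :
    typ X i = some fun j => X j i := by
  unfold typ at h ⊢
  by_cases hh : ∀ j j', X j i = X j' i
  · rw [if_pos hh] at h
    exact absurd rfl h
  · rw [if_neg hh]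

theorem char_sum {k : ℕ} [NeZero m] (f : Fin k → ZMod m) :
    ∏ j, (ZMod.stdAddChar (f j) : ℂ) = ZMod.stdAddChar (∑ j, f j) := by
  classical
  have : ∀ s : Finset (Fin k), ∏ j ∈ s, (ZMod.stdAddChar (f j) : ℂ) =
      ZMod.stdAddChar (∑ j ∈ s, f j) := by
    intro s
    induction s using Finset.induction_on with
    | empty => simp
    | insert i s hi ih => rw [Finset.sum_insert hi, Finset.prod_insert hi,
        AddChar.map_add_eq_mul, ih]
  exact this univ

theorem norm_fibre [NeZero p] [NeZero m] {D : ℕ} (hpm : p.Coprime m) (c : ℝ)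
    (ih : ∀ (F : (Fin n → Bool) → ZMod p), F ∈ pol p n D → ∀ (L : Fin n → ZMod m)
      (T : Finset (Fin n)) (z : Fin n → Bool),
      ‖∑ x ∈ cube T z, (ZMod.stdAddChar (F x) : ℂ) * ZMod.stdAddChar (ev L x)‖ ≤
        2 ^ Tᶜ.card * Real.exp (-(c * off T L)))
    (F : (Fin n → Bool) → ZMod p) (hF : F ∈ pol p n (D + 1)) (L : Fin n → ZMod m)
    (T : Finset (Fin n)) (z : Fin n → Bool) (k : Fin n → Option (Fin p → Bool)) :
    ‖∑ X ∈ (Fintype.piFinset fun _ : Fin p => cube T z).filter (fun X => typ X = k),
      ∏ j, ((ZMod.stdAddChar (F (X j)) : ℂ) * ZMod.stdAddChar (ev L (X j)))‖ ≤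
    ∑ X ∈ (Fintype.piFinset fun _ : Fin p => cube T z).filter (fun X => typ X = k),
      ∏ i, if i ∉ T ∧ L i ≠ 0 ∧ typ X i = none then Real.exp (-c) else 1 := by
  classical
  set Fb := (Fintype.piFinset fun _ : Fin p => cube T z).filter (fun X => typ X = k) with hFb
  rcases Fb.eq_empty_or_nonempty with he | ⟨X₀, hX₀⟩
  · rw [he]
    simp
  have hX₀' := Finset.mem_filter.1 hX₀
  have hX₀c : ∀ j, ∀ i ∈ T, X₀ j i = z i := fun j =>
    mem_cube.1 (Fintype.mem_piFinset.1 hX₀'.1 j)
  have hk : typ X₀ = k := hX₀'.2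
  let j₀ : Fin p := ⟨0, Nat.pos_of_ne_zero (NeZero.ne p)⟩
  set C : Finset (Fin n) := univ.filter fun i => k i = none with hC
  have hmemC : ∀ i, i ∈ C ↔ k i = none := fun i => by rw [hC, Finset.mem_filter]; simp
  set T' : Finset (Fin n) := T ∪ Cᶜ with hT'
  -- the bijection
  have hbij : ∀ (g : (Fin p → Fin n → Bool) → ℂ), ∑ X ∈ Fb, g X =
      ∑ u ∈ cube T' (X₀ j₀), g (glue C X₀ u) := by
    intro g
    symm
    refine Finset.sum_bij' (fun u _ => glue C X₀ u) (fun X _ => X j₀) ?_ ?_ ?_ ?_ ?_
    · intro u hu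
      rw [mem_cube] at hu
      rw [hFb, Finset.mem_filter, Fintype.mem_piFinset]
      constructor
      · intro j
        rw [mem_cube]
        intro i hi
        unfold glue
        by_cases hc : i ∈ C
        · rw [if_pos hc, hu i (mem_union_left _ hi)]
          exact hX₀c j₀ i hi
        · rw [if_neg hc]
          exact hX₀c j i hi
      · funext i
        by_cases hc : i ∈ C
        · have h1 : typ (glue C X₀ u) i = none := by
            unfold typ
            rw [if_pos]
            intro j j'
            unfold glue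
            rw [if_pos hc, if_pos hc]
          rw [h1, (hmemC i).1 hc]
        · have h1 : typ (glue C X₀ u) i = typ X₀ i := by
            unfold typ glue
            simp only [if_neg hc]
          rw [h1, hk]
    · intro X hX
      rw [hFb, Finset.mem_filter, Fintype.mem_piFinset] at hX
      rw [mem_cube]
      intro i hi
      rcases mem_union.1 hi with h1 | h1
      · rw [mem_cube.1 (hX.1 j₀) i h1]
        exact (hX₀c j₀ i h1).symm
      · have h2 : k i ≠ none := fun h => (mem_compl.1 h1) ((hmemC i).2 h)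
        have h3 := typ_ne_none (X := X) (i := i) (by rw [hX.2]; exact h2)
        have h4 := typ_ne_none (X := X₀) (i := i) (by rw [hk]; exact h2)
        rw [hX.2] at h3
        rw [hk, h3] at h4
        exact congrFun (Option.some.inj h4) j₀
    · intro u hu
      rw [mem_cube] at hu
      funext i
      unfold glue
      by_cases hc : i ∈ C
      · rw [if_pos hc]
      · rw [if_neg hc, hu i (mem_union_right _ (mem_compl.2 hc))]
    · intro X hX
      rw [hFb, Finset.mem_filter, Fintype.mem_piFinset] at hX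
      funext j i
      unfold glue
      by_cases hc : i ∈ C
      · rw [if_pos hc]
        exact typ_none (by rw [hX.2]; exact (hmemC i).1 hc) _ _
      · rw [if_neg hc]
        have h2 : k i ≠ none := fun h => hc ((hmemC i).2 h)
        have h3 := typ_ne_none (X := X) (i := i) (by rw [hX.2]; exact h2)
        have h4 := typ_ne_none (X := X₀) (i := i) (by rw [hk]; exact h2)
        rw [hX.2] at h3
        rw [hk, h3] at h4
        exact (congrFun (Option.some.inj h4) j).symm
    · intro u _
      rfl
  -- the sum over the fibre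
  have h1 : ∑ X ∈ Fb, ∏ j, ((ZMod.stdAddChar (F (X j)) : ℂ) * ZMod.stdAddChar (ev L (X j))) =
      (ZMod.stdAddChar (∑ j, ev (fun i => if i ∈ C then 0 else L i) (X₀ j)) : ℂ) *
      ∑ u ∈ cube T' (X₀ j₀), (ZMod.stdAddChar ((fun u => ∑ j, F (glue C X₀ u j)) u) : ℂ) *
        ZMod.stdAddChar (ev (restr p C L) u) := by
    rw [hbij, Finset.mul_sum]
    refine Finset.sum_congr rfl fun u _ => ?_
    rw [Finset.prod_mul_distrib]
    have e1 : ∏ j, (ZMod.stdAddChar (F (glue C X₀ u j)) : ℂ) =
        ZMod.stdAddChar (∑ j, F (glue C X₀ u j)) := by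
      exact char_sum _
    have e2 : ∏ j, (ZMod.stdAddChar (ev L (glue C X₀ u j)) : ℂ) =
        ZMod.stdAddChar (∑ j, ev L (glue C X₀ u j)) := by
      exact char_sum _
    rw [e1, e2, sum_ev_glue, AddChar.map_add_eq_mul]
    ring
  rw [h1, norm_mul, norm_char, one_mul]
  refine (ih _ (sum_glue_mem C X₀ hF) _ _ _).trans (le_of_eq ?_)
  -- the right hand side
  have h2 : ∀ X ∈ Fb, (∏ i, if i ∉ T ∧ L i ≠ 0 ∧ typ X i = none then Real.exp (-c) else 1) =
      Real.exp (-(c * off T' (restr p C L))) := by
    intro X hX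
    have hXk : typ X = k := (Finset.mem_filter.1 hX).2
    rw [Finset.prod_ite, Finset.prod_const, Finset.prod_const_one, mul_one, ← Real.exp_nat_mul]
    congr 1
    have e3 : (univ.filter fun i => i ∉ T ∧ L i ≠ 0 ∧ typ X i = none).card =
        off T' (restr p C L) := by
      unfold off
      congr 1
      ext i
      rw [Finset.mem_filter, Finset.mem_filter, hXk]
      simp only [mem_univ, true_and, hT', mem_union, mem_compl, not_or, not_not, hmemC]
      constructor
      · rintro ⟨h3, h4, h5⟩
        refine ⟨⟨h3, h5⟩, ?_⟩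
        unfold restr
        rw [if_pos ((hmemC i).2 h5)]
        intro h6
        have hu : IsUnit (p : ZMod m) := (ZMod.isUnit_iff_coprime p m).2 hpm
        exact h4 (hu.mul_right_eq_zero.1 h6)
      · rintro ⟨⟨h3, h5⟩, h4⟩
        refine ⟨h3, ?_, h5⟩
        intro h6
        apply h4
        unfold restr
        rw [if_pos ((hmemC i).2 h5), h6, mul_zero]
    rw [e3]
    ring
  rw [Finset.sum_congr rfl h2, Finset.sum_const, nsmul_eq_mul]
  congr 1
  have h3 := hbij fun _ => 1
  simp only [Finset.sum_const, nsmul_eq_mul, mul_one] at h3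
  have h4 : Fb.card = (cube T' (X₀ j₀)).card := by exact_mod_cast h3
  rw [h4, card_cube]
  push_cast
  rfl

/-- The total weight. -/
theorem sum_weight (hp : 1 ≤ p) (c : ℝ) (hc0 : 0 ≤ c) (hc1 : c ≤ 1) (L : Fin n → ZMod m)
    (T : Finset (Fin n)) (z : Fin n → Bool) :
    ∑ X ∈ (Fintype.piFinset fun _ : Fin p => cube T z),
      (∏ i, if i ∉ T ∧ L i ≠ 0 ∧ typ X i = none then Real.exp (-c) else 1) ≤
    (2 ^ Tᶜ.card * Real.exp (-(c / (p * 2 ^ p) * off T L))) ^ p := by
  classical
  have hpne : p ≠ 0 := by omega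
  let j₀ : Fin p := ⟨0, by omega⟩
  -- exchange the two indices
  let A : Fin n → Finset (Fin p → Bool) := fun i => if i ∈ T then {fun _ => z i} else univ
  let w : Fin n → (Fin p → Bool) → ℝ := fun i t =>
    if i ∉ T ∧ L i ≠ 0 ∧ ∀ j j', t j = t j' then Real.exp (-c) else 1
  have h1 : ∑ X ∈ (Fintype.piFinset fun _ : Fin p => cube T z),
      (∏ i, if i ∉ T ∧ L i ≠ 0 ∧ typ X i = none then Real.exp (-c) else 1) =
      ∑ Y ∈ Fintype.piFinset A, ∏ i, w i (Y i) := by
    refine Finset.sum_bij' (fun X _ => fun i j => X j i) (fun Y _ => fun j i => Y i j)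
      ?_ ?_ ?_ ?_ ?_
    · intro X hX
      rw [Fintype.mem_piFinset] at hX ⊢
      intro i
      by_cases hi : i ∈ T
      · simp only [A, if_pos hi, mem_singleton]
        funext j
        exact mem_cube.1 (hX j) i hi
      · simp only [A, if_neg hi, mem_univ]
    · intro Y hY
      rw [Fintype.mem_piFinset] at hY ⊢
      intro j
      rw [mem_cube]
      intro i hi
      have := hY i
      simp only [A, if_pos hi, mem_singleton] at this
      rw [this]
    · intro X _
      rfl
    · intro Y _
      rfl
    · intro X _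
      refine Finset.prod_congr rfl fun i _ => ?_
      have e : typ X i = none ↔ ∀ j j', X j i = X j' i := by
        unfold typ
        by_cases hh : ∀ j j', X j i = X j' i
        · simp [hh]
        · rw [if_neg hh]
          simp [hh]
      simp only [w, e]
  rw [h1, ← Finset.prod_univ_sum]
  -- the factors
  have h2 : ∀ i, ∑ t ∈ A i, w i t ≤
      (if i ∈ Tᶜ then (2 : ℝ) ^ p else 1) * (if i ∈ (univ.filter fun i => i ∉ T ∧ L i ≠ 0) then
        Real.exp (-(c / 2 ^ p)) else 1) := by
    intro i
    by_cases hi : i ∈ T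
    · have h3 : i ∉ (univ.filter fun i => i ∉ T ∧ L i ≠ 0) := by simp [hi]
      have h4 : i ∉ Tᶜ := by simp [hi]
      rw [if_neg h3, if_neg h4]
      simp [A, w, hi]
    · have h4 : i ∈ Tᶜ := by simp [hi]
      rw [if_pos h4]
      by_cases hL : L i = 0
      · have h3 : i ∉ (univ.filter fun i => i ∉ T ∧ L i ≠ 0) := by simp [hL]
        rw [if_neg h3]
        simp [A, w, hi, hL]
      · have h3 : i ∈ (univ.filter fun i => i ∉ T ∧ L i ≠ 0) := by simp [hi, hL]
        rw [if_pos h3]
        have h5 : ∑ t ∈ A i, w i t = ∑ t : Fin p → Bool,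
            (1 - if ∀ j j', t j = t j' then (1 - Real.exp (-c)) else 0) := by
          simp only [A, if_neg hi]
          refine Finset.sum_congr rfl fun t _ => ?_
          by_cases ht : ∀ j j', t j = t j'
          · simp only [w]
            rw [if_pos ⟨hi, hL, ht⟩, if_pos ht]
            ring
          · simp only [w]
            rw [if_neg (fun h => ht h.2.2), if_neg ht]
            ring
        rw [h5, Finset.sum_sub_distrib, ← Finset.sum_filter, Finset.sum_const, Finset.sum_const,
          Finset.card_univ, Fintype.card_fun, Fintype.card_bool, Fintype.card_fin, nsmul_eq_mul,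
          nsmul_eq_mul, mul_one]
        have h6 : (univ.filter fun t : Fin p → Bool => ∀ j j', t j = t j').card = 2 := by
          have h7 : (univ.filter fun t : Fin p → Bool => ∀ j j', t j = t j') =
              {fun _ => true, fun _ => false} := by
            ext t
            simp only [Finset.mem_filter, mem_univ, true_and, mem_insert, mem_singleton]
            constructor
            · intro h
              rcases hb : t j₀ with _ | _
              · right
                funext j
                rw [h j j₀, hb]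
              · left
                funext j
                rw [h j j₀, hb]
            · rintro (rfl | rfl) <;> intro _ _ <;> rfl
          rw [h7, Finset.card_pair]
          intro h
          have := congrFun h j₀
          cases this
        rw [h6]
        have h8 : 1 - Real.exp (-c) ≥ c / 2 := by
          have h9 := Real.quadratic_le_exp_of_nonneg hc0
          have h10 : Real.exp (-c) = 1 / Real.exp c := by rw [Real.exp_neg, one_div]
          have h11 : 0 < Real.exp c := Real.exp_pos c
          rw [h10, ge_iff_le, le_sub_iff_add_le, ← le_sub_iff_add_le', div_le_iff₀ h11]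
          nlinarith
        have h9 := Real.add_one_le_exp (-(c / 2 ^ p))
        have h10 : (0 : ℝ) < 2 ^ p := by positivity
        have h11 : (2 : ℝ) ^ p * (-(c / 2 ^ p) + 1) = 2 ^ p - c := by
          field_simp
          ring
        have h12 := mul_le_mul_of_nonneg_left h9 h10.le
        rw [h11] at h12
        push_cast
        linarith
  refine (Finset.prod_le_prod (fun i _ => Finset.sum_nonneg fun t _ => ?_) fun i _ => h2 i).trans
    (le_of_eq ?_)
  · simp only [w]
    split_ifs
    · exact (Real.exp_pos _).le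
    · exact zero_le_one
  rw [Finset.prod_mul_distrib, Finset.prod_ite_mem, Finset.univ_inter, Finset.prod_const,
    Finset.prod_ite_mem, Finset.univ_inter, Finset.prod_const, mul_pow, ← pow_mul, ← pow_mul,
    mul_comm p, ← Real.exp_nat_mul, ← Real.exp_nat_mul]
  congr 2
  have hpR : (p : ℝ) ≠ 0 := by exact_mod_cast hpne
  unfold off
  field_simp

theorem corr_cube [Fact p.Prime] [NeZero m] (hpm : p.Coprime m) (D : ℕ) :
    ∀ (F : (Fin n → Bool) → ZMod p), F ∈ pol p n D → ∀ (L : Fin n → ZMod m)
      (T : Finset (Fin n)) (z : Fin n → Bool),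
      ‖∑ x ∈ cube T z, (ZMod.stdAddChar (F x) : ℂ) * ZMod.stdAddChar (ev L x)‖ ≤
        2 ^ Tᶜ.card * Real.exp (-(1 / (m : ℝ) ^ 2 / (p * 2 ^ p) ^ D * off T L)) := by
  classical
  have hm : (1 : ℝ) ≤ m := by exact_mod_cast Nat.pos_of_ne_zero (NeZero.ne m)
  have hp1 : 1 ≤ p := (Fact.out : p.Prime).one_lt.le
  have hpR : (1 : ℝ) ≤ p := by exact_mod_cast hp1
  induction D with
  | zero =>
    intro F hF L T z
    have h1 : ∑ x ∈ cube T z, (ZMod.stdAddChar (F x) : ℂ) * ZMod.stdAddChar (ev L x) =
        ZMod.stdAddChar (F z) * ∑ x ∈ cube T z, (ZMod.stdAddChar (ev L x) : ℂ) := by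
      rw [Finset.mul_sum]
      refine Finset.sum_congr rfl fun x _ => ?_
      rw [const_of_pol_zero hF x z]
    rw [h1, norm_mul, norm_char, one_mul]
    refine (norm_sum_cube_le L T z (off T L) le_rfl).trans ?_
    refine mul_le_mul_of_nonneg_left ?_ (by positivity)
    unfold rho
    rw [← Real.exp_nat_mul]
    refine Real.exp_le_exp.2 ?_
    have h2 : (0 : ℝ) ≤ 1 / (m : ℝ) ^ 2 * off T L := by positivity
    have h3 : (off T L : ℝ) * -(2 / (m : ℝ) ^ 2) = -(2 * (1 / (m : ℝ) ^ 2 * off T L)) := by ring
    rw [h3, pow_zero, div_one]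
    linarith
  | succ D ih =>
    intro F hF L T z
    set c : ℝ := 1 / (m : ℝ) ^ 2 / (p * 2 ^ p) ^ D with hc
    have hc0 : 0 ≤ c := by positivity
    have hb : (1 : ℝ) ≤ (p * 2 ^ p) ^ D := by
      refine one_le_pow₀ ?_
      have : (1 : ℝ) ≤ 2 ^ p := one_le_pow₀ (by norm_num)
      nlinarith
    have hc1 : c ≤ 1 := by
      rw [hc, div_div, div_le_one (by positivity)]
      have : (1 : ℝ) ≤ (m : ℝ) ^ 2 := one_le_pow₀ hm
      nlinarith
    have hNp : NeZero p := ⟨by omega⟩
    set S : ℂ := ∑ x ∈ cube T z, (ZMod.stdAddChar (F x) : ℂ) * ZMod.stdAddChar (ev L x) with hS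
    have h1 : S ^ p = ∑ X ∈ (Fintype.piFinset fun _ : Fin p => cube T z),
        ∏ j, ((ZMod.stdAddChar (F (X j)) : ℂ) * ZMod.stdAddChar (ev L (X j))) := by
      rw [hS, Finset.sum_pow']
    have h2 : ‖S‖ ^ p ≤ ∑ X ∈ (Fintype.piFinset fun _ : Fin p => cube T z),
        (∏ i, if i ∉ T ∧ L i ≠ 0 ∧ typ X i = none then Real.exp (-c) else 1) := by
      rw [← norm_pow, h1]
      rw [← Finset.sum_fiberwise_of_maps_to (s := Fintype.piFinset fun _ : Fin p => cube T z)
        (t := univ) (g := typ) (fun _ _ => mem_univ _)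
        (fun X => ∏ j, ((ZMod.stdAddChar (F (X j)) : ℂ) * ZMod.stdAddChar (ev L (X j)))),
        ← Finset.sum_fiberwise_of_maps_to (s := Fintype.piFinset fun _ : Fin p => cube T z)
        (t := univ) (g := typ) (fun _ _ => mem_univ _)
        (fun X => ∏ i, if i ∉ T ∧ L i ≠ 0 ∧ typ X i = none then Real.exp (-c) else 1)]
      refine (norm_sum_le _ _).trans (Finset.sum_le_sum fun k _ => ?_)
      exact norm_fibre hpm c ih F hF L T z k
    have h3 := h2.trans (sum_weight hp1 c hc0 hc1 L T z)
    have h4 := (pow_le_pow_iff_left₀ (norm_nonneg S) (by positivity) (by omega)).1 h3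
    refine h4.trans (le_of_eq ?_)
    congr 3
    rw [hc, pow_succ]
    field_simp
    ring

/-- **The correlation bound.** -/
theorem corrProp (p m : ℕ) [Fact p.Prime] [NeZero m] (hpm : p.Coprime m) :
    ∃ κ : ℕ, 1 ≤ κ ∧ CorrProp p m κ := by
  classical
  have hm1 : 1 ≤ m := Nat.pos_of_ne_zero (NeZero.ne m)
  have hp1 : 1 ≤ p := (Fact.out : p.Prime).one_lt.le
  have h2p : 1 ≤ 2 ^ p := Nat.one_le_pow _ _ (by norm_num)
  refine ⟨m ^ 2 * (p * 2 ^ p), Nat.mul_pos (by positivity) (Nat.mul_pos hp1 h2p), ?_⟩
  intro D n F hF L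
  have h := corr_cube (n := n) hpm D F hF L ∅ (fun _ => false)
  have h1 : cube (∅ : Finset (Fin n)) (fun _ => false) = univ := by
    ext x
    rw [mem_cube]
    simp
  have h2 : off (∅ : Finset (Fin n)) L = supp L := by
    unfold off supp
    simp
  rw [h1, h2, Finset.compl_empty, Finset.card_univ, Fintype.card_fin] at h
  refine h.trans (mul_le_mul_of_nonneg_left (Real.exp_le_exp.2 (neg_le_neg ?_)) (by positivity))
  have hmR : (1 : ℝ) ≤ m := by exact_mod_cast hm1
  have hpR : (1 : ℝ) ≤ p := by exact_mod_cast hp1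
  have h2pR : (1 : ℝ) ≤ 2 ^ p := one_le_pow₀ (by norm_num)
  have hpp : (1 : ℝ) ≤ p * 2 ^ p := by nlinarith
  push_cast
  rw [div_le_iff₀ (by positivity)]
  have h3 : 1 / (m : ℝ) ^ 2 / (p * 2 ^ p) ^ D * supp L * ((m : ℝ) ^ 2 * (p * 2 ^ p)) ^ (D + 1) =
      supp L * (((m : ℝ) ^ 2) ^ D * (p * 2 ^ p)) := by
    rw [mul_pow, pow_succ, pow_succ]
    field_simp
    ring
  rw [h3]
  have h4 : (1 : ℝ) ≤ ((m : ℝ) ^ 2) ^ D * (p * 2 ^ p) := by
    have h5 : (1 : ℝ) ≤ ((m : ℝ) ^ 2) ^ D := one_le_pow₀ (one_le_pow₀ hmR)
    nlinarith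
  have h6 : (0 : ℝ) ≤ supp L := Nat.cast_nonneg _
  nlinarith

end Pool.Agent.MixSys
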