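import Pool.Agent.Helper21.LinSys.Regular
import Pool.Agent.QuadSys.Basics
import Pool.Agent.RS.LowDeg

/-!
# Unbounded ANDs of mixed clauses: definitions

A clause is an arbitrary function of `w` polynomials of degree at most `D` modulo `p ^ a` and of
one linear form modulo a prime different from `p`.
-/

set_option autoImplicit false

namespace Pool.Agent.MixSys

open Finset Pool.Agent.Helper21.LinSys

/-- The monomial `∏ i ∈ S, x i` modulo `p`. -/
def mon (p : ℕ) {n : ℕ} (S : Finset (Fin n)) (x : Fin n → Bool) : ZMod p :=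
  if ∀ i ∈ S, x i = true then 1 else 0

/-- Polynomials of degree at most `D` modulo `p`, as functions on the cube. -/
def pol (p n D : ℕ) : Submodule (ZMod p) ((Fin n → Bool) → ZMod p) :=
  Submodule.span (ZMod p) {f | ∃ S : Finset (Fin n), S.card ≤ D ∧ f = mon p S}

open Classical in
/-- The points at which all functions in `U` and all linear forms in `Γ` have the same values as
at `y`. -/
noncomputable def cell {p m n : ℕ} (U : Submodule (ZMod p) ((Fin n → Bool) → ZMod p))
    (Γ : AddSubgroup (Fin n → ZMod m)) (y : Fin n → Bool) : Finset (Fin n → Bool) :=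
  univ.filter fun x => (∀ g ∈ U, g x = g y) ∧ ∀ L ∈ Γ, ev L x = ev L y

/-- An elementary clause: `F x = 0` or `ev L x ≠ u`. -/
structure Clause (p m n : ℕ) where
  F : (Fin n → Bool) → ZMod p
  L : Fin n → ZMod m
  u : ZMod m

/-- The clause is violated at `x`. -/
def Clause.Viol {p m n : ℕ} (c : Clause p m n) (x : Fin n → Bool) : Prop :=
  c.F x ≠ 0 ∧ ev c.L x = c.u

/-- Admissible clauses: the polynomial has degree at most `D`, the linear form and the forbidden
value are killed by a prime. -/
def Clause.Adm {p m n : ℕ} (D : ℕ) (c : Clause p m n) : Prop :=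
  c.F ∈ pol p n D ∧ ∃ q : ℕ, q.Prime ∧ q ∣ m ∧ (q : ZMod m) • c.L = 0 ∧ (q : ZMod m) * c.u = 0

/-- `P` is a conjunction of any number of admissible clauses. -/
def Gate (p m D n : ℕ) (P : (Fin n → Bool) → Prop) : Prop :=
  ∃ 𝒞 : Set (Clause p m n), (∀ c ∈ 𝒞, c.Adm D) ∧ ∀ x, P x ↔ ∀ c ∈ 𝒞, ¬ c.Viol x

/-- `P` is a system of any number of equations of degree at most `D` modulo `p`. -/
def PSys (p D n : ℕ) (P : (Fin n → Bool) → Prop) : Prop :=
  ∃ E : Set ((Fin n → Bool) → ZMod p), (∀ F ∈ E, F ∈ pol p n D) ∧ ∀ x, P x ↔ ∀ F ∈ E, F x = 0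

/-- The number of nonzero coefficients. -/
def supp {m n : ℕ} (L : Fin n → ZMod m) : ℕ := (univ.filter fun i => L i ≠ 0).card

/-- The correlation bound between polynomials of degree at most `D` modulo `p` and linear forms
modulo `m`, with the constant `κ`. -/
def CorrProp (p m κ : ℕ) [NeZero p] [NeZero m] : Prop :=
  ∀ (D n : ℕ) (F : (Fin n → Bool) → ZMod p), F ∈ pol p n D → ∀ L : Fin n → ZMod m,
    ‖∑ x, (ZMod.stdAddChar (F x) : ℂ) * ZMod.stdAddChar (ev L x)‖ ≤
      2 ^ n * Real.exp (-((supp L : ℝ) / κ ^ (D + 1)))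

end Pool.Agent.MixSys
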