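import Mathlib

/-!
# Bottom gates: unbounded conjunctions of mixed clauses
-/

set_option autoImplicit false

namespace Pool.Agent.MixSys

/-- `g` is an arbitrary function of `w` polynomials of degree at most `D` modulo `p ^ a` and of one
linear sum modulo a prime `q ≤ m` different from `p`. In other words, `g` is computed by an
arbitrary gate of fan-in `w + 1`, whose inputs are `w` (general) `MOD_{p ^ a}` gates reading
conjunctions of at most `D` variables and one (general) `MOD_q` gate reading variables, with
arbitrary multiplicities. -/
def MixLocal (p a w D m n : ℕ) (g : (Fin n → Bool) → Bool) : Prop :=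
  ∃ (q : ℕ) (c : Fin w → Finset (Fin n) → ZMod (p ^ a)) (l : Fin n → ZMod q)
    (A : (Fin w → ZMod (p ^ a)) → ZMod q → Bool), q.Prime ∧ q ≠ p ∧ q ≤ m ∧
      ∀ x, g x = A (fun s => ∑ S, if S.card ≤ D ∧ ∀ i ∈ S, x i = true then c s S else 0)
        (∑ i, if x i = true then l i else 0)

/-- `P` is computed by an `AND` gate of unbounded fan-in whose inputs are arbitrary functions of
`w` polynomials of degree at most `D` modulo `p ^ a` and of one linear sum modulo a prime `q ≤ m`
different from `p`; the polynomials, the linear sum and the prime `q` depend on the input. -/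
def AndOfMixed (p a w D m n : ℕ) (P : (Fin n → Bool) → Bool) : Prop :=
  ∃ 𝒞 : Set ((Fin n → Bool) → Bool), (∀ g ∈ 𝒞, MixLocal p a w D m n g) ∧
    ∀ x, P x = true ↔ ∀ g ∈ 𝒞, g x = true

end Pool.Agent.MixSys
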