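import Pool.Agent.MixSys.Corr

/-!
# Polynomials of bounded degree modulo `p` on the cube
-/

set_option autoImplicit false

namespace Pool.Agent.MixSys

open Finset Pool.Agent.Helper21.LinSys

variable {p n : ℕ}

theorem mon_mul_mon (S T : Finset (Fin n)) : mon p S * mon p T = mon p (S ∪ T) := by
  classical
  funext x
  simp only [Pi.mul_apply, mon]
  by_cases hS : ∀ i ∈ S, x i = true
  · by_cases hT : ∀ i ∈ T, x i = true
    · rw [if_pos hS, if_pos hT, if_pos, one_mul]
      intro i hi
      rcases mem_union.1 hi with h | h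
      · exact hS i h
      · exact hT i h
    · have h3 : ¬ ∀ i ∈ S ∪ T, x i = true := fun h => hT fun i hi => h i (mem_union_right _ hi)
      rw [if_neg hT, if_neg h3, mul_zero]
  · have h3 : ¬ ∀ i ∈ S ∪ T, x i = true := fun h => hS fun i hi => h i (mem_union_left _ hi)
    rw [if_neg hS, if_neg h3, zero_mul]

theorem mul_mem_pol {a b : ℕ} {f g : (Fin n → Bool) → ZMod p} (hf : f ∈ pol p n a)
    (hg : g ∈ pol p n b) : f * g ∈ pol p n (a + b) := by
  classical
  unfold pol at hf
  induction hf using Submodule.span_induction with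
  | mem f hf =>
    obtain ⟨S, hS, rfl⟩ := hf
    unfold pol at hg
    induction hg using Submodule.span_induction with
    | mem g hg =>
      obtain ⟨T, hT, rfl⟩ := hg
      rw [mon_mul_mon]
      exact mon_mem_pol _ ((card_union_le S T).trans (Nat.add_le_add hS hT))
    | zero => rw [mul_zero]; exact Submodule.zero_mem _
    | add g h _ _ ihg ihh => rw [mul_add]; exact Submodule.add_mem _ ihg ihh
    | smul c g _ ih => rw [mul_smul_comm]; exact Submodule.smul_mem _ _ ih
  | zero => rw [zero_mul]; exact Submodule.zero_mem _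
  | add f h _ _ ihf ihh => rw [add_mul]; exact Submodule.add_mem _ ihf ihh
  | smul c f _ ih => rw [smul_mul_assoc]; exact Submodule.smul_mem _ _ ih

theorem one_mem_pol (D : ℕ) : (1 : (Fin n → Bool) → ZMod p) ∈ pol p n D := by
  have h : (1 : (Fin n → Bool) → ZMod p) = mon p ∅ := by
    funext x
    simp [mon]
  rw [h]
  exact mon_mem_pol _ (by simp)

theorem const_mem_pol (D : ℕ) (c : ZMod p) : (fun _ => c : (Fin n → Bool) → ZMod p) ∈ pol p n D := by
  have h : (fun _ => c : (Fin n → Bool) → ZMod p) = c • (1 : (Fin n → Bool) → ZMod p) := by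
    funext x
    simp
  rw [h]
  exact Submodule.smul_mem _ _ (one_mem_pol D)

theorem prod_mem_pol {ι : Type*} (s : Finset ι) (f : ι → (Fin n → Bool) → ZMod p) (D : ι → ℕ)
    (h : ∀ i ∈ s, f i ∈ pol p n (D i)) : ∏ i ∈ s, f i ∈ pol p n (∑ i ∈ s, D i) := by
  classical
  induction s using Finset.induction_on with
  | empty => simpa using one_mem_pol 0
  | insert i s hi ih =>
    rw [prod_insert hi, sum_insert hi]
    exact mul_mem_pol (h i (mem_insert_self _ _)) (ih fun j hj => h j (mem_insert_of_mem hj))

theorem pow_mem_pol {D : ℕ} {f : (Fin n → Bool) → ZMod p} (hf : f ∈ pol p n D) (k : ℕ) :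
    f ^ k ∈ pol p n (k * D) := by
  induction k with
  | zero => simpa using one_mem_pol 0
  | succ k ih =>
    rw [pow_succ, add_mul, one_mul]
    exact mul_mem_pol ih hf

/-- Functions of at most `R` coordinates have degree at most `R`. -/
theorem junta_mem_pol {R : ℕ} (S : Finset (Fin n)) (hS : S.card ≤ R)
    (f : (Fin n → Bool) → ZMod p) (hf : ∀ x y, (∀ i ∈ S, x i = y i) → f x = f y) :
    f ∈ pol p n R := by
  classical
  -- the indicator of the restriction of `x` to `S`
  have hlit : ∀ (i : Fin n) (b : Bool),
      (fun x : Fin n → Bool => if x i = b then (1 : ZMod p) else 0) ∈ pol p n 1 := by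
    intro i b
    have h1 : mon p {i} ∈ pol p n 1 := mon_mem_pol _ (by simp)
    rcases b with _ | _
    · have h2 : (fun x : Fin n → Bool => if x i = false then (1 : ZMod p) else 0) =
          1 - mon p {i} := by
        funext x
        cases h : x i <;> simp [mon, h]
      rw [h2]
      exact Submodule.sub_mem _ (one_mem_pol 1) h1
    · have h2 : (fun x : Fin n → Bool => if x i = true then (1 : ZMod p) else 0) = mon p {i} := by
        funext x
        cases h : x i <;> simp [mon, h]
      rw [h2]
      exact h1
  have h1 : f = ∑ z : S → Bool, (f fun i => if h : i ∈ S then z ⟨i, h⟩ else false) •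
      ∏ i : S, fun x : Fin n → Bool => if x i = z i then (1 : ZMod p) else 0 := by
    funext x
    rw [Finset.sum_apply]
    rw [Finset.sum_eq_single fun i : S => x i]
    · simp only [Pi.smul_apply, Finset.prod_apply, if_true, Finset.prod_const_one, smul_eq_mul,
        mul_one]
      refine hf _ _ fun i hi => ?_
      simp [hi]
    · intro z _ hz
      obtain ⟨i, hi⟩ := Function.ne_iff.1 hz
      rw [Pi.smul_apply, Finset.prod_apply, Finset.prod_eq_zero (mem_univ i), smul_zero]
      rw [if_neg]
      exact fun h => hi h.symm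
    · intro h
      exact absurd (mem_univ _) h
  rw [h1]
  refine Submodule.sum_mem _ fun z _ => Submodule.smul_mem _ _ ?_
  have h2 := prod_mem_pol (univ : Finset S)
    (fun i => fun x : Fin n → Bool => if x i = z i then (1 : ZMod p) else 0) (fun _ => 1)
    fun i _ => hlit i (z i)
  refine pol_mono ?_ h2
  simpa using hS

end Pool.Agent.MixSys
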