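import Pool.Agent.MixSys.Defs

/-!
# Equidistribution of linear forms on cells
-/

set_option autoImplicit false

namespace Pool.Agent.MixSys

open Finset Pool.Agent.Helper21.LinSys

variable {p m n : ℕ}

theorem mem_cell {U : Submodule (ZMod p) ((Fin n → Bool) → ZMod p)}
    {Γ : AddSubgroup (Fin n → ZMod m)} {y x : Fin n → Bool} :
    x ∈ cell U Γ y ↔ (∀ g ∈ U, g x = g y) ∧ ∀ L ∈ Γ, ev L x = ev L y := by
  classical
  unfold cell
  rw [Finset.mem_filter]
  simp

theorem self_mem_cell (U : Submodule (ZMod p) ((Fin n → Bool) → ZMod p))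
    (Γ : AddSubgroup (Fin n → ZMod m)) (y : Fin n → Bool) : y ∈ cell U Γ y :=
  mem_cell.2 ⟨fun _ _ => rfl, fun _ _ => rfl⟩

theorem sum_char_pol [NeZero p] (U : Submodule (ZMod p) ((Fin n → Bool) → ZMod p))
    (x y : Fin n → Bool) [Decidable (∀ g ∈ U, g x = g y)] [Fintype U] :
    ∑ g : U, (ZMod.stdAddChar ((g : (Fin n → Bool) → ZMod p) x) : ℂ) *
      ZMod.stdAddChar (-(g : (Fin n → Bool) → ZMod p) y) =
      if ∀ g ∈ U, g x = g y then (Nat.card U : ℂ) else 0 := by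
  classical
  let e : U →+ ZMod p :=
    { toFun := fun g => (g : (Fin n → Bool) → ZMod p) x - (g : (Fin n → Bool) → ZMod p) y
      map_zero' := by simp
      map_add' := fun a b => by simp only [Submodule.coe_add, Pi.add_apply]; ring }
  let ψ : AddChar U ℂ := ZMod.stdAddChar.compAddMonoidHom e
  have hψ : ∀ g : U, ψ g = (ZMod.stdAddChar ((g : (Fin n → Bool) → ZMod p) x) : ℂ) *
      ZMod.stdAddChar (-(g : (Fin n → Bool) → ZMod p) y) := by
    intro g
    rw [← AddChar.map_add_eq_mul, ← sub_eq_add_neg]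
    rfl
  rw [← Finset.sum_congr rfl fun g _ => hψ g, AddChar.sum_eq_ite, Nat.card_eq_fintype_card]
  have h0 : ψ = 0 ↔ ∀ g ∈ U, g x = g y := by
    rw [AddChar.eq_zero_iff]
    constructor
    · intro h g hg
      have h1 := h ⟨g, hg⟩
      have h2 : (ZMod.stdAddChar (g x - g y) : ℂ) = ZMod.stdAddChar (0 : ZMod p) := by
        rw [AddChar.map_zero_eq_one]
        exact h1
      exact sub_eq_zero.1 (ZMod.injective_stdAddChar h2)
    · intro h g
      rw [hψ, h g g.2, ← AddChar.map_add_eq_mul, add_neg_cancel, AddChar.map_zero_eq_one]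
  by_cases h : ∀ g ∈ U, g x = g y
  · rw [if_pos h, if_pos (h0.2 h)]
  · rw [if_neg h, if_neg (fun hc => h (h0.1 hc))]

/-- Character sums over a cell are bounded by the largest correlation. -/
theorem norm_sum_cell_le [NeZero p] [NeZero m]
    (U : Submodule (ZMod p) ((Fin n → Bool) → ZMod p)) (Γ : AddSubgroup (Fin n → ZMod m))
    (y : Fin n → Bool) (L : Fin n → ZMod m) (B : ℝ)
    (hB : ∀ g ∈ U, ∀ l ∈ Γ,
      ‖∑ x, (ZMod.stdAddChar (g x) : ℂ) * ZMod.stdAddChar (ev (l + L) x)‖ ≤ B) :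
    ‖∑ x ∈ cell U Γ y, (ZMod.stdAddChar (ev L x) : ℂ)‖ ≤ B := by
  classical
  have : Fintype Γ := Fintype.ofFinite _
  have : Fintype U := Fintype.ofFinite _
  have hU : (0 : ℝ) < Nat.card U := by exact_mod_cast Nat.card_pos
  have hΓ : (0 : ℝ) < Nat.card Γ := by exact_mod_cast Nat.card_pos
  have h1 : (Nat.card U : ℂ) * Nat.card Γ * ∑ x ∈ cell U Γ y, (ZMod.stdAddChar (ev L x) : ℂ) =
      ∑ g : U, ∑ l : Γ, (ZMod.stdAddChar (-(g : (Fin n → Bool) → ZMod p) y) : ℂ) *
        ZMod.stdAddChar (-ev (l : Fin n → ZMod m) y) *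
        ∑ x, (ZMod.stdAddChar ((g : (Fin n → Bool) → ZMod p) x) : ℂ) *
          ZMod.stdAddChar (ev ((l : Fin n → ZMod m) + L) x) := by
    have e1 : ∑ x ∈ cell U Γ y, (ZMod.stdAddChar (ev L x) : ℂ) =
        ∑ x, if (∀ g ∈ U, g x = g y) ∧ ∀ L ∈ Γ, ev L x = ev L y then
          (ZMod.stdAddChar (ev L x) : ℂ) else 0 := by
      rw [← Finset.sum_filter]
      refine Finset.sum_congr ?_ fun _ _ => rfl
      ext x
      rw [mem_cell, Finset.mem_filter]
      simp
    have e2 : ∀ x, (Nat.card U : ℂ) * Nat.card Γ *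
        (if (∀ g ∈ U, g x = g y) ∧ ∀ L ∈ Γ, ev L x = ev L y then
          (ZMod.stdAddChar (ev L x) : ℂ) else 0) =
        (∑ g : U, (ZMod.stdAddChar ((g : (Fin n → Bool) → ZMod p) x) : ℂ) *
          ZMod.stdAddChar (-(g : (Fin n → Bool) → ZMod p) y)) *
        (∑ l : Γ, (ZMod.stdAddChar (ev (l : Fin n → ZMod m) x) : ℂ) *
          ZMod.stdAddChar (-ev (l : Fin n → ZMod m) y)) * ZMod.stdAddChar (ev L x) := by
      intro x
      rw [sum_char_pol U x y, sum_char_group Γ x y]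
      by_cases h1 : ∀ g ∈ U, g x = g y
      · by_cases h2 : ∀ L ∈ Γ, ev L x = ev L y
        · rw [if_pos h1, if_pos h2, if_pos ⟨h1, h2⟩]
        · rw [if_pos h1, if_neg h2, if_neg (fun h => h2 h.2)]
          simp
      · rw [if_neg h1, if_neg (fun h => h1 h.1)]
        simp
    have e3 : ∀ x : Fin n → Bool,
        (∑ g : U, (ZMod.stdAddChar ((g : (Fin n → Bool) → ZMod p) x) : ℂ) *
          ZMod.stdAddChar (-(g : (Fin n → Bool) → ZMod p) y)) *
        (∑ l : Γ, (ZMod.stdAddChar (ev (l : Fin n → ZMod m) x) : ℂ) *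
          ZMod.stdAddChar (-ev (l : Fin n → ZMod m) y)) * ZMod.stdAddChar (ev L x) =
        ∑ g : U, ∑ l : Γ, (ZMod.stdAddChar (-(g : (Fin n → Bool) → ZMod p) y) : ℂ) *
        ZMod.stdAddChar (-ev (l : Fin n → ZMod m) y) *
        ((ZMod.stdAddChar ((g : (Fin n → Bool) → ZMod p) x) : ℂ) *
          ZMod.stdAddChar (ev ((l : Fin n → ZMod m) + L) x)) := by
      intro x
      rw [Finset.sum_mul_sum, Finset.sum_mul]
      refine Finset.sum_congr rfl fun g _ => ?_
      rw [Finset.sum_mul]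
      refine Finset.sum_congr rfl fun l _ => ?_
      rw [ev_add, AddChar.map_add_eq_mul]
      ring
    rw [e1, Finset.mul_sum, Finset.sum_congr rfl fun x _ => (e2 x).trans (e3 x)]
    calc _ = ∑ g : U, ∑ x : Fin n → Bool, ∑ l : Γ,
        (ZMod.stdAddChar (-(g : (Fin n → Bool) → ZMod p) y) : ℂ) *
        ZMod.stdAddChar (-ev (l : Fin n → ZMod m) y) *
        ((ZMod.stdAddChar ((g : (Fin n → Bool) → ZMod p) x) : ℂ) *
          ZMod.stdAddChar (ev ((l : Fin n → ZMod m) + L) x)) := Finset.sum_comm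
      _ = ∑ g : U, ∑ l : Γ, ∑ x : Fin n → Bool,
        (ZMod.stdAddChar (-(g : (Fin n → Bool) → ZMod p) y) : ℂ) *
        ZMod.stdAddChar (-ev (l : Fin n → ZMod m) y) *
        ((ZMod.stdAddChar ((g : (Fin n → Bool) → ZMod p) x) : ℂ) *
          ZMod.stdAddChar (ev ((l : Fin n → ZMod m) + L) x)) :=
          Finset.sum_congr rfl fun g _ => Finset.sum_comm
      _ = _ := Finset.sum_congr rfl fun g _ => Finset.sum_congr rfl fun l _ =>
          (Finset.mul_sum _ _ _).symm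
  have h2 : ‖∑ g : U, ∑ l : Γ, (ZMod.stdAddChar (-(g : (Fin n → Bool) → ZMod p) y) : ℂ) *
        ZMod.stdAddChar (-ev (l : Fin n → ZMod m) y) *
        ∑ x, (ZMod.stdAddChar ((g : (Fin n → Bool) → ZMod p) x) : ℂ) *
          ZMod.stdAddChar (ev ((l : Fin n → ZMod m) + L) x)‖ ≤ Nat.card U * (Nat.card Γ * B) := by
    refine (norm_sum_le _ _).trans ?_
    have e3 : ∀ g : U, ‖∑ l : Γ, (ZMod.stdAddChar (-(g : (Fin n → Bool) → ZMod p) y) : ℂ) *
        ZMod.stdAddChar (-ev (l : Fin n → ZMod m) y) *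
        ∑ x, (ZMod.stdAddChar ((g : (Fin n → Bool) → ZMod p) x) : ℂ) *
          ZMod.stdAddChar (ev ((l : Fin n → ZMod m) + L) x)‖ ≤ Nat.card Γ * B := by
      intro g
      refine (norm_sum_le _ _).trans ?_
      have e4 : ∀ l : Γ, ‖(ZMod.stdAddChar (-(g : (Fin n → Bool) → ZMod p) y) : ℂ) *
          ZMod.stdAddChar (-ev (l : Fin n → ZMod m) y) *
          ∑ x, (ZMod.stdAddChar ((g : (Fin n → Bool) → ZMod p) x) : ℂ) *
            ZMod.stdAddChar (ev ((l : Fin n → ZMod m) + L) x)‖ ≤ B := by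
        intro l
        rw [norm_mul, norm_mul, norm_char, norm_char, one_mul, one_mul]
        exact hB g g.2 l l.2
      refine (Finset.sum_le_sum fun l _ => e4 l).trans ?_
      rw [Finset.sum_const, Finset.card_univ, nsmul_eq_mul, Nat.card_eq_fintype_card]
    refine (Finset.sum_le_sum fun g _ => e3 g).trans ?_
    rw [Finset.sum_const, Finset.card_univ, nsmul_eq_mul, ← Nat.card_eq_fintype_card]
  rw [← h1, norm_mul, norm_mul, Complex.norm_natCast, Complex.norm_natCast] at h2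
  have h3 : (Nat.card U : ℝ) * Nat.card Γ * ‖∑ x ∈ cell U Γ y, (ZMod.stdAddChar (ev L x) : ℂ)‖ ≤
      (Nat.card U : ℝ) * Nat.card Γ * B := by
    refine h2.trans (le_of_eq ?_)
    ring
  exact le_of_mul_le_mul_left h3 (by positivity)

/-- Orthogonality for the multiples of an element killed by `q`. -/
theorem sum_range_char [NeZero m] {q : ℕ} (hq : q.Prime) (w : ZMod m)
    (hw : (q : ZMod m) * w = 0) :
    ∑ a ∈ range q, (ZMod.stdAddChar ((a : ZMod m) * w) : ℂ) = if w = 0 then (q : ℂ) else 0 := by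
  by_cases h : w = 0
  · rw [if_pos h, h]
    simp
  · rw [if_neg h]
    have h1 : ∀ a : ℕ, (ZMod.stdAddChar ((a : ZMod m) * w) : ℂ) = (ZMod.stdAddChar w : ℂ) ^ a := by
      intro a
      rw [← nsmul_eq_mul, AddChar.map_nsmul_eq_pow]
    rw [Finset.sum_congr rfl fun a _ => h1 a]
    have h2 : (ZMod.stdAddChar w : ℂ) ≠ 1 := by
      intro h3
      apply h
      have : (ZMod.stdAddChar w : ℂ) = ZMod.stdAddChar (0 : ZMod m) := by
        rw [AddChar.map_zero_eq_one]
        exact h3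
      exact ZMod.injective_stdAddChar this
    have h3 : (ZMod.stdAddChar w : ℂ) ^ q = 1 := by
      rw [← h1, hw, AddChar.map_zero_eq_one]
    rw [geom_sum_eq h2, h3]
    simp

/-- A linear form that is regular at a cell takes each of its values on a fraction about `1 / q` of
the cell. -/
theorem cell_value [NeZero p] [NeZero m] (U : Submodule (ZMod p) ((Fin n → Bool) → ZMod p))
    (Γ : AddSubgroup (Fin n → ZMod m)) (y : Fin n → Bool) {q : ℕ} (hq : q.Prime)
    (L : Fin n → ZMod m) (hL : (q : ZMod m) • L = 0) (v : ZMod m) (hv : (q : ZMod m) * v = 0)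
    (B : ℝ) (hB : ∀ a : ℕ, 1 ≤ a → a < q → ∀ g ∈ U, ∀ l ∈ Γ,
      ‖∑ x, (ZMod.stdAddChar (g x) : ℂ) * ZMod.stdAddChar (ev (l + (a : ZMod m) • L) x)‖ ≤ B) :
    ((cell U Γ y).card : ℝ) - q * B ≤ q * (((cell U Γ y).filter fun x => ev L x = v).card : ℝ) := by
  classical
  have hev : ∀ (a : ZMod m) (x : Fin n → Bool), ev (a • L) x = a * ev L x := by
    intro a x
    unfold ev
    rw [Finset.mul_sum]
    refine Finset.sum_congr rfl fun i _ => ?_
    by_cases h : x i = true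
    · simp [h]
    · simp [h]
  have hB0 : 0 ≤ B := by
    have h1 := hB 1 le_rfl hq.one_lt 0 U.zero_mem 0 Γ.zero_mem
    exact (norm_nonneg _).trans h1
  have hkill : ∀ x, (q : ZMod m) * (ev L x - v) = 0 := by
    intro x
    rw [mul_sub, hv, sub_zero, ← hev, hL, ev_zero]
  have h1 : (q : ℂ) * (((cell U Γ y).filter fun x => ev L x = v).card : ℂ) =
      ∑ a ∈ range q, ZMod.stdAddChar (-((a : ZMod m) * v)) *
        ∑ x ∈ cell U Γ y, (ZMod.stdAddChar (ev ((a : ZMod m) • L) x) : ℂ) := by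
    have e1 : (q : ℂ) * (((cell U Γ y).filter fun x => ev L x = v).card : ℂ) =
        ∑ x ∈ cell U Γ y, if ev L x - v = 0 then (q : ℂ) else 0 := by
      rw [← Finset.sum_filter, Finset.sum_const, nsmul_eq_mul, mul_comm]
      congr 3
      ext x
      rw [Finset.mem_filter, Finset.mem_filter, sub_eq_zero]
    rw [e1, Finset.sum_congr rfl fun x _ => (sum_range_char hq _ (hkill x)).symm,
      Finset.sum_comm]
    refine Finset.sum_congr rfl fun a _ => ?_
    rw [Finset.mul_sum]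
    refine Finset.sum_congr rfl fun x _ => ?_
    rw [hev, ← AddChar.map_add_eq_mul]
    congr 1
    ring
  have hq1 : 1 ≤ q := hq.one_lt.le
  obtain ⟨r, rfl⟩ : ∃ r, q = r + 1 := ⟨q - 1, by omega⟩
  rw [Finset.sum_range_succ'] at h1
  have e0 : (ZMod.stdAddChar (-(((0 : ℕ) : ZMod m) * v)) : ℂ) *
      ∑ x ∈ cell U Γ y, (ZMod.stdAddChar (ev (((0 : ℕ) : ZMod m) • L) x) : ℂ) =
      ((cell U Γ y).card : ℂ) := by
    simp [ev_zero]
  rw [e0] at h1
  have h2 : ‖∑ a ∈ range r, (ZMod.stdAddChar (-(((a + 1 : ℕ) : ZMod m) * v)) : ℂ) *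
      ∑ x ∈ cell U Γ y, (ZMod.stdAddChar (ev (((a + 1 : ℕ) : ZMod m) • L) x) : ℂ)‖ ≤
      r * B := by
    refine (norm_sum_le _ _).trans ?_
    have e1 : ∀ a ∈ range r, ‖(ZMod.stdAddChar (-(((a + 1 : ℕ) : ZMod m) * v)) : ℂ) *
        ∑ x ∈ cell U Γ y, (ZMod.stdAddChar (ev (((a + 1 : ℕ) : ZMod m) • L) x) : ℂ)‖ ≤ B := by
      intro a ha
      rw [norm_mul, norm_char, one_mul]
      refine norm_sum_cell_le U Γ y _ B ?_
      exact hB (a + 1) (by omega) (by have := mem_range.1 ha; omega)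
    refine (Finset.sum_le_sum e1).trans ?_
    rw [Finset.sum_const, card_range, nsmul_eq_mul]
  have h3 : ((cell U Γ y).card : ℂ) = ((r + 1 : ℕ) : ℂ) *
      (((cell U Γ y).filter fun x => ev L x = v).card : ℂ) -
      ∑ a ∈ range r, (ZMod.stdAddChar (-(((a + 1 : ℕ) : ZMod m) * v)) : ℂ) *
      ∑ x ∈ cell U Γ y, (ZMod.stdAddChar (ev (((a + 1 : ℕ) : ZMod m) • L) x) : ℂ) := by
    rw [h1]
    ring
  have h4 := congrArg norm h3
  rw [Complex.norm_natCast] at h4
  have h5 := norm_sub_le (((r + 1 : ℕ) : ℂ) *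
      (((cell U Γ y).filter fun x => ev L x = v).card : ℂ))
      (∑ a ∈ range r, (ZMod.stdAddChar (-(((a + 1 : ℕ) : ZMod m) * v)) : ℂ) *
      ∑ x ∈ cell U Γ y, (ZMod.stdAddChar (ev (((a + 1 : ℕ) : ZMod m) • L) x) : ℂ))
  rw [← h4, norm_mul, Complex.norm_natCast, Complex.norm_natCast] at h5
  have h6 : (r : ℝ) * B ≤ ((r + 1 : ℕ) : ℝ) * B := by
    push_cast
    nlinarith
  linarith

end Pool.Agent.MixSys
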